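import Mathlib

namespace Pool.Agent.H.MP_df1ab4_co

def sub {α : Type} (W : List α) (p : ℕ → Bool) : List (Option α) :=
  ((List.range W.length).filter p).map fun i => W[i]?

def ShSq {α : Type} (W : List α) : Prop := ∃ p : ℕ → Bool, sub W p = sub W fun i => !p i

def CutLe {α : Type} (W : List α) (c : ℕ) : Prop :=
  ∃ Bs Cs : List (List α), Bs.length ≤ c + 1 ∧ Bs.flatten = W ∧ Cs.Perm Bs ∧ ShSq Cs.flatten

lemma filt (p : ℕ → Bool) (n t : ℕ) (ht : t < n) (hp : p t = true) :
    ((List.range n).filter p)[((List.range t).filter p).length]? = some t := by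
  induction n with
  | zero => omega
  | succ n ih =>
    rw [List.range_succ, List.filter_append]
    by_cases h : t < n
    · have h1 := ih h
      rw [List.getElem?_append_left (List.getElem?_eq_some_iff.1 h1).1, h1]
    · obtain rfl : t = n := by omega
      rw [List.getElem?_append_right le_rfl]
      simp [hp]

lemma sub_get {α : Type} (W : List α) (p : ℕ → Bool) (t : ℕ) (ht : t < W.length) (hp : p t = true) :
    (sub W p)[((List.range t).filter p).length]? = some W[t]? := by
  rw [sub, List.getElem?_map, filt p _ t ht hp]; rfl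

variable {k : ℕ}

def ext {β : Type} {h : ℕ} (d : β) (f : Fin h → β) (i : ℕ) : β := if hi : i < h then f ⟨i, hi⟩ else d

def letter {h : ℕ} (z : Fin k) (X : Fin h → Fin k) (m : Fin (2 * h) → Bool) (t : ℕ) : Fin k :=
  ext z X ((List.range t).filter fun i => ext false m i == ext false m t).length

lemma enc (z : Fin k) (h : ℕ) (S : List (Fin k)) (hS : ShSq S) (hl : S.length ≤ 2 * h) :
    ∃ (X : Fin h → Fin k) (m : Fin (2 * h) → Bool), ∀ t (ht : t < S.length),
      letter z X m t = S[t] := by
  obtain ⟨p, hp⟩ := hS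
  have hlen : (sub S p).length ≤ h := by
    have h1 : (sub S p).length + (sub S fun i => !p i).length = S.length := by
      simp only [sub, List.length_map]
      have := List.length_eq_length_filter_add (l := List.range S.length) p
      simp only [List.length_range] at this
      exact this.symm
    rw [← hp] at h1
    omega
  refine ⟨fun i => (((sub S p)[i.1]?).join).getD z, fun i => p i, fun t ht => ?_⟩
  have e : ∀ i < 2 * h, ext false (fun i : Fin (2 * h) => p i) i = p i := by
    intro i hi; simp [ext, hi]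
  have key : (sub S p)[((List.range t).filter fun i => p i == p t).length]? = some S[t]? := by
    cases hx : p t
    · rw [hp]
      have := sub_get S (fun i => !p i) t ht (by simp [hx])
      simpa using this
    · have := sub_get S p t ht hx
      simpa using this
  have e2 : ((List.range t).filter fun i => ext false (fun i : Fin (2 * h) => p i) i ==
      ext false (fun i : Fin (2 * h) => p i) t) = (List.range t).filter fun i => p i == p t := by
    apply List.filter_congr
    intro i hi
    have := List.mem_range.1 hi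
    rw [e i (by omega), e t (by omega)]
  have h3 := (List.getElem?_eq_some_iff.1 key).1
  rw [letter, e2, ext, dif_pos (by omega)]
  simp only [key]
  simp [ht]

def dec {h c : ℕ} (z : Fin k) (d : (Fin h → Fin k) × (Fin (2 * h) → Bool) ×
    (Fin (c + 1) → Fin (2 * h + 1) × Fin (2 * h + 1))) : List (Fin k) :=
  (List.ofFn fun j => (List.range (d.2.2 j).2).map fun t => letter z d.1 d.2.1 ((d.2.2 j).1 + t)).flatten

lemma flat_pad {α : Type} (Bs : List (List α)) : ∀ n, Bs.length ≤ n →
    (List.ofFn fun j : Fin n => Bs.getD j []).flatten = Bs.flatten := by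
  induction Bs with
  | nil => intro n _; simp
  | cons B Bs ih =>
    intro n hn
    obtain ⟨n, rfl⟩ : ∃ m, n = m + 1 := ⟨n - 1, by simp at hn; omega⟩
    rw [List.ofFn_succ, List.flatten_cons, List.flatten_cons, ← ih n (by simpa using hn)]
    simp

lemma surj (z : Fin k) (h c : ℕ) (W : List (Fin k)) (hW : CutLe W c) (hl : W.length ≤ 2 * h) :
    ∃ d, dec (h := h) (c := c) z d = W := by
  obtain ⟨Bs, Cs, h1, rfl, h3, h4⟩ := hW
  have hl2 : Cs.flatten.length ≤ 2 * h := by rw [h3.flatten.length_eq]; exact hl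
  obtain ⟨X, m, hX⟩ := enc z h _ h4 hl2
  have hB : ∀ j : Fin (c + 1), ∃ ab : Fin (2 * h + 1) × Fin (2 * h + 1),
      ((List.range ab.2).map fun t => letter z X m (ab.1 + t)) = Bs.getD j [] := by
    intro j
    have hin : Bs.getD j [] <:+: Cs.flatten := by
      by_cases hj : j.1 < Bs.length
      · rw [List.getD_eq_getElem _ _ hj]
        exact List.infix_of_mem_flatten (h3.mem_iff.2 (List.getElem_mem hj))
      · rw [List.getD_eq_default _ _ (by omega)]
        exact List.nil_infix
    generalize Bs.getD j [] = B at hin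
    obtain ⟨s, r, hs⟩ := hin
    have hlen : s.length + B.length + r.length = Cs.flatten.length := by
      rw [← hs]; simp [add_assoc]
    refine ⟨(⟨s.length, by omega⟩, ⟨B.length, by omega⟩), ?_⟩
    apply List.ext_getElem (by simp)
    intro t h5 h6
    simp only [List.getElem_map, List.getElem_range]
    rw [hX _ (by omega)]
    simp only [← hs]
    rw [List.getElem_append_left (by simp; omega), List.getElem_append_right (by omega)]
    simp
  choose f hf using hB
  refine ⟨(X, m, f), ?_⟩
  simp only [dec, hf]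
  exact flat_pad Bs _ h1

def mk {M : ℕ} (u : Fin M → Fin k) : List (Fin k) :=
  List.ofFn u ++ (List.finRange k).filter fun a => decide (Odd ((List.ofFn u).count a))

lemma mk_even {M : ℕ} (u : Fin M → Fin k) (a : Fin k) : Even ((mk u).count a) := by
  rw [mk, List.count_append]
  by_cases h : Odd ((List.ofFn u).count a)
  · rw [List.count_filter (by simpa using h), List.count_finRange]
    exact h.add_one
  · have h0 : List.count a ((List.finRange k).filter fun a => decide (Odd ((List.ofFn u).count a))) = 0 :=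
      List.count_eq_zero.2 (fun hm => h (by simpa using (List.mem_filter.1 hm).2))
    rw [h0, add_zero]
    exact Nat.not_odd_iff_even.1 h

lemma mk_len {M : ℕ} (u : Fin M → Fin k) : (mk u).length ≤ M + k := by
  rw [mk, List.length_append, List.length_ofFn]
  have := List.length_filter_le (fun a => decide (Odd ((List.ofFn u).count a))) (List.finRange k)
  simp only [List.length_finRange] at this
  omega

lemma mk_inj {M : ℕ} (u v : Fin M → Fin k) (h : mk u = mk v) : u = v :=
  List.ofFn_injective (List.append_inj_left h (by simp))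

lemma big (k e : ℕ) (hk : 5 ≤ k) : ∃ h, k ≤ h ∧ 4 ^ h * (2 * h + 1) ^ e * k ^ k < k ^ h := by
  have h1 := tendsto_pow_const_div_const_pow_of_one_lt e (r := (5 / 4 : ℝ)) (by norm_num)
  have h2 : (0 : ℝ) < 1 / (3 ^ e * k ^ k) := by positivity
  obtain ⟨h, h3, h4⟩ := ((h1.eventually (gt_mem_nhds h2)).and (Filter.eventually_ge_atTop k)).exists
  refine ⟨h, h4, ?_⟩
  rw [div_lt_div_iff₀ (by positivity) (by positivity), one_mul, div_pow, lt_div_iff₀ (by positivity)] at h3
  have h5 : (h : ℝ) ^ e * (3 ^ e * k ^ k) * 4 ^ h < 5 ^ h := h3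
  have h6 : h ^ e * (3 ^ e * k ^ k) * 4 ^ h < 5 ^ h := by exact_mod_cast h5
  calc 4 ^ h * (2 * h + 1) ^ e * k ^ k ≤ 4 ^ h * (h * 3) ^ e * k ^ k := by gcongr; omega
    _ = h ^ e * (3 ^ e * k ^ k) * 4 ^ h := by rw [mul_pow]; ring
    _ < 5 ^ h := h6
    _ ≤ k ^ h := Nat.pow_le_pow_left hk _

theorem unb (k c : ℕ) (hk : 5 ≤ k) : ∃ W : List (Fin k), (∀ a, Even (W.count a)) ∧ ¬ CutLe W c := by
  by_contra hcon
  push Not at hcon
  obtain ⟨h, h1, h2⟩ := big k (2 * (c + 1)) hk
  obtain ⟨M, hM⟩ : ∃ M, M + k = 2 * h := ⟨2 * h - k, by omega⟩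
  have z : Fin k := ⟨0, by omega⟩
  have h3 : ∀ u : Fin M → Fin k, ∃ d, dec (h := h) (c := c) z d = mk u := fun u =>
    surj z h c _ (hcon _ (mk_even u)) (hM ▸ mk_len u)
  choose f hf using h3
  have h4 := Fintype.card_le_of_injective f (fun u v e => mk_inj u v (by rw [← hf, ← hf, e]))
  simp only [Fintype.card_prod, Fintype.card_fun, Fintype.card_fin, Fintype.card_bool] at h4
  have h5 : k ^ M * k ^ k = k ^ h * k ^ h := by rw [← pow_add, ← pow_add, hM, two_mul]
  have h6 : k ^ h * k ^ h ≤ k ^ h * (4 ^ h * (2 * h + 1) ^ (2 * (c + 1)) * k ^ k) := by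
    rw [← h5]
    calc k ^ M * k ^ k ≤ k ^ h * (2 ^ (2 * h) * ((2 * h + 1) * (2 * h + 1)) ^ (c + 1)) * k ^ k :=
          Nat.mul_le_mul_right _ h4
      _ = _ := by rw [pow_mul, pow_mul, ← sq]; ring
  have := Nat.le_of_mul_le_mul_left h6 (by positivity)
  omega

theorem main : (∀ k c : ℕ, 5 ≤ k → ∃ W : List (Fin k), (∀ a, Even (W.count a)) ∧ ¬ CutLe W c) ∧
    ¬ ∀ k : ℕ, 2 ≤ k → ∀ W : List (Fin k), (∀ a, Even (W.count a)) → CutLe W k := by
  refine ⟨unb, fun h => ?_⟩
  obtain ⟨W, h1, h2⟩ := unb 5 5 le_rfl
  exact h2 (h 5 (by norm_num) W h1)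

end Pool.Agent.H.MP_df1ab4_co
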